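import Pool.Agent.helper7.EP.SpecH

/-! # Project ep, module ID -/

set_option autoImplicit false

open Finset PowerSeries UpperHalfPlane ModularForm
open scoped MatrixGroups Real

noncomputable section

namespace Pool.Agent.EP

theorem ID_pp_zero : pp 0 = 1 := by
  unfold pp
  simp

theorem ID_two_tri (r : ℕ) : 2 * tri r = r * (r + 1) := by
  unfold tri
  exact Nat.mul_div_cancel' (Nat.even_mul_succ_self r).two_dvd

theorem ID_tri (r : ℕ) : 24 * tri r + 3 = 3 * (2 * r + 1) ^ 2 := by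
  have h := ID_two_tri r
  nlinarith

theorem ID_tri_inj {r s : ℕ} (h : tri r = tri s) : r = s := by
  have h1 := ID_tri r
  have h2 := ID_tri s
  rw [h, h2] at h1
  have h3 : (2 * s + 1) ^ 2 = (2 * r + 1) ^ 2 := by omega
  have h4 : 2 * s + 1 = 2 * r + 1 := Nat.pow_left_injective (n := 2) (by norm_num) h3
  omega

theorem ID_le_tri (r : ℕ) : r ≤ tri r := by
  have h := ID_two_tri r
  rcases Nat.eq_zero_or_pos r with rfl | hr
  · exact Nat.zero_le _
  · have : r * 2 ≤ r * (r + 1) := Nat.mul_le_mul_left r (by omega)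
    omega

theorem ID_A (a : ℕ) (ha : 3 ≤ a) : 2 ^ a % 24 = 8 ∨ 2 ^ a % 24 = 16 := by
  have h1 : 2 ^ a % 8 = 0 := by
    obtain ⟨b, rfl⟩ := Nat.exists_eq_add_of_le ha
    rw [pow_add]
    omega
  have h2 : ¬ 3 ∣ 2 ^ a := fun h => by
    have := Nat.Prime.dvd_of_dvd_pow Nat.prime_three h
    omega
  omega

theorem ID_w (w : ℕ) (hw : w % 2 = 1) : (3 * w ^ 2) % 24 = 3 := by
  have h : w ^ 2 % 8 = 1 := by
    rw [Nat.pow_mod]
    have h1 : w % 8 < 8 := Nat.mod_lt _ (by norm_num)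
    have h2 : w % 8 % 2 = 1 := by omega
    generalize w % 8 = y at h1 h2
    interval_cases y <;> simp_all
  omega

theorem ID_sq (x : ℕ) (h2 : x % 2 = 1) (h3 : x % 3 ≠ 0) : x ^ 2 % 24 = 1 := by
  rw [Nat.pow_mod]
  have h1 : x % 24 < 24 := Nat.mod_lt _ (by norm_num)
  have h4 : x % 24 % 2 = 1 := by omega
  have h5 : x % 24 % 3 ≠ 0 := by omega
  generalize x % 24 = y at h1 h4 h5
  interval_cases y <;> simp_all

/-- the coefficient of the first series at a negative index. -/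
theorem ID_f1 (hWA : WA_stmt) (a : ℕ) (ha : 3 ≤ a) (M : ℤ) (hM : M < 0) :
    (ww ^ (2 ^ a - 3)).coeff M =
      ∑ w ∈ ws (2 ^ a), if M = -((2 ^ a - 3 * w ^ 2 : ℕ) : ℤ) then (1 : ZMod 2) else 0 := by
  have hj : ∀ w ∈ ws (2 ^ a), ((2 ^ a - 3 * w ^ 2 : ℕ) : ℤ) = 2 ^ a - 3 * (w : ℤ) ^ 2 := by
    intro w hw
    simp only [ws, Finset.mem_filter, Finset.mem_range] at hw
    rw [Nat.cast_sub (by omega)]
    push_cast
    ring
  -- the solutions of the sum over `rs`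
  have hrs : ∀ n : ℕ, M = 24 * (n : ℤ) + 3 - 2 ^ a → ∀ r ∈ rs (2 ^ a) n, tri r = n := by
    intro n hn r hr
    simp only [rs, Finset.mem_filter, Finset.mem_range] at hr
    have hnA : n < 2 ^ a := by
      have : (n : ℤ) < ((2 ^ a : ℕ) : ℤ) := by
        push_cast
        omega
      exact_mod_cast this
    have h0 : n - tri r = 0 := Nat.eq_zero_of_dvd_of_lt hr.2.2 (by omega)
    omega
  by_cases h : ∃ r : ℕ, M = 3 * (2 * (r : ℤ) + 1) ^ 2 - 2 ^ a
  · obtain ⟨r, hr⟩ := h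
    have hz : (24 : ℤ) * (tri r : ℤ) + 3 = 3 * (2 * (r : ℤ) + 1) ^ 2 := by exact_mod_cast ID_tri r
    have hM2 : M = 24 * ((tri r : ℕ) : ℤ) + 3 - 2 ^ a := by rw [hr, ← hz]
    have hlt : 3 * (2 * r + 1) ^ 2 < 2 ^ a := by
      have : (3 * (2 * (r : ℤ) + 1) ^ 2) < 2 ^ a := by linarith
      exact_mod_cast this
    have e1 : (ww ^ (2 ^ a - 3)).coeff M = 1 := by
      rw [hM2, (hWA a ha).1 (tri r)]
      rw [Finset.sum_eq_single r]
      · rw [Nat.sub_self, Nat.zero_div, ID_pp_zero]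
      · intro s hs hsr
        exact absurd (ID_tri_inj (hrs (tri r) hM2 s hs)) hsr
      · intro hnot
        exfalso
        apply hnot
        simp only [rs, Finset.mem_filter, Finset.mem_range]
        refine ⟨?_, le_rfl, ?_⟩
        · have := ID_le_tri r
          omega
        · rw [Nat.sub_self]
          exact dvd_zero _
    rw [e1, Finset.sum_eq_single (2 * r + 1)]
    · rw [if_pos]
      rw [Nat.cast_sub hlt.le, hr]
      push_cast
      ring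
    · intro w hw hne
      rw [if_neg]
      intro hMw
      apply hne
      rw [hj w hw, hr] at hMw
      have h5 : (w : ℤ) ^ 2 = (2 * (r : ℤ) + 1) ^ 2 := by linarith
      have h6 : w ^ 2 = (2 * r + 1) ^ 2 := by exact_mod_cast h5
      exact Nat.pow_left_injective (n := 2) (by norm_num) h6
    · intro hnot
      exfalso
      apply hnot
      simp only [ws, Finset.mem_filter, Finset.mem_range]
      refine ⟨?_, by omega, hlt⟩
      nlinarith
  · have e2 : ∑ w ∈ ws (2 ^ a), (if M = -((2 ^ a - 3 * w ^ 2 : ℕ) : ℤ) then (1 : ZMod 2) else 0)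
        = 0 := by
      refine Finset.sum_eq_zero fun w hw => ?_
      rw [if_neg]
      intro hMw
      apply h
      rw [hj w hw] at hMw
      simp only [ws, Finset.mem_filter, Finset.mem_range] at hw
      refine ⟨w / 2, ?_⟩
      have h7 : (w : ℤ) = 2 * ((w / 2 : ℕ) : ℤ) + 1 := by omega
      rw [hMw, ← h7]
      ring
    rw [e2]
    by_cases hn : ∃ n : ℕ, M = 24 * (n : ℤ) + 3 - 2 ^ a
    · obtain ⟨n, hn⟩ := hn
      rw [hn, (hWA a ha).1 n]
      refine Finset.sum_eq_zero fun r hr => ?_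
      exfalso
      apply h
      refine ⟨r, ?_⟩
      have hz : (24 : ℤ) * (tri r : ℤ) + 3 = 3 * (2 * (r : ℤ) + 1) ^ 2 := by
        exact_mod_cast ID_tri r
      rw [← hz, hrs n hn r hr, hn]
    · exact (hWA a ha).2 M hn

/-- the coefficient at a positive index. -/
theorem ID_JG (a : ℕ) (ha : 3 ≤ a) (n w : ℕ) (hn : 2 ^ a < 24 * n + 3) (hw : w ∈ ws (2 ^ a)) :
    JG ac (2 ^ a - 3 * w ^ 2) (24 * (n : ℤ) + 3 - 2 ^ a) =
      ∑ d ∈ (Nat.gcd (2 ^ a - 3 * w ^ 2) (24 * n + 3 - 2 ^ a)).divisors,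
        pp (((2 ^ a - 3 * w ^ 2) * (24 * n + 3 - 2 ^ a) / d ^ 2 + 1) / 24) := by
  simp only [ws, Finset.mem_filter, Finset.mem_range] at hw
  obtain ⟨j, hj⟩ : ∃ j, j = 2 ^ a - 3 * w ^ 2 := ⟨_, rfl⟩
  obtain ⟨m, hm⟩ : ∃ m, m = 24 * n + 3 - 2 ^ a := ⟨_, rfl⟩
  have hA := ID_A a ha
  have hw24 := ID_w w hw.2.1
  have hMm : (24 * (n : ℤ) + 3 - 2 ^ a) = (m : ℤ) := by
    rw [hm, Nat.cast_sub hn.le]
    push_cast
    ring
  rw [← hj, ← hm, hMm]
  have hj0 : 0 < j := by omega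
  have hm0 : 0 < m := by omega
  have hj24 : (j % 24 = 5 ∧ m % 24 = 19) ∨ (j % 24 = 13 ∧ m % 24 = 11) := by omega
  have hjm : (j * m) % 24 = 23 := by
    rw [Nat.mul_mod]
    rcases hj24 with ⟨h1, h2⟩ | ⟨h1, h2⟩ <;> rw [h1, h2]
  unfold JG
  have hset : j.divisors.filter (fun d : ℕ => (d : ℤ) ∣ (m : ℤ)) = (Nat.gcd j m).divisors := by
    ext d
    simp only [Finset.mem_filter, Nat.mem_divisors, Int.natCast_dvd_natCast, Nat.dvd_gcd_iff]
    constructor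
    · rintro ⟨⟨h1, _⟩, h2⟩
      exact ⟨⟨h1, h2⟩, (Nat.gcd_pos_of_pos_left _ hj0).ne'⟩
    · rintro ⟨⟨h1, h2⟩, _⟩
      exact ⟨⟨h1, hj0.ne'⟩, h2⟩
  rw [hset]
  refine Finset.sum_congr rfl fun d hd => ?_
  rw [Nat.mem_divisors, Nat.dvd_gcd_iff] at hd
  obtain ⟨⟨hdj, hdm⟩, _⟩ := hd
  obtain ⟨N, hN⟩ : d ^ 2 ∣ j * m := by
    rw [pow_two]
    exact Nat.mul_dvd_mul hdj hdm
  have hd0 : 0 < d := Nat.pos_of_dvd_of_pos hdj hj0
  have hd2 : 0 < d ^ 2 := by positivity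
  have e1 : j * m / d ^ 2 = N := by
    rw [hN]
    exact Nat.mul_div_cancel_left N hd2
  have e2 : ((j : ℤ) * (m : ℤ) / (d : ℤ) ^ 2) = (N : ℤ) := by
    have : ((j * m / d ^ 2 : ℕ) : ℤ) = (N : ℤ) := by rw [e1]
    rw [← this]
    push_cast
    ring_nf
  rw [e1, e2]
  have hdodd : d % 2 = 1 := by
    rcases Nat.even_or_odd d with h | h
    · exfalso
      have : 2 ∣ j := h.two_dvd.trans hdj
      omega
    · exact Nat.odd_iff.1 h
  have hd3 : d % 3 ≠ 0 := by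
    intro h
    have : 3 ∣ j := (Nat.dvd_of_mod_eq_zero h).trans hdj
    omega
  have hd24 := ID_sq d hdodd hd3
  have hN24 : N % 24 = 23 := by
    rw [hN, Nat.mul_mod, hd24] at hjm
    omega
  unfold ac
  rw [if_pos]
  · congr 1
  · constructor
    · omega
    · omega

theorem ID (hJW : JW_stmt) (hNEG : NEG_stmt) (hWA : WA_stmt) (hJN : JN_stmt) : ID_stmt := by
  intro a n ha hn
  have hA := ID_A a ha
  have hjw : ∀ w ∈ ws (2 ^ a), 0 < 2 ^ a - 3 * w ^ 2 ∧ Nat.Coprime (2 ^ a - 3 * w ^ 2) 6 := by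
    intro w hw
    simp only [ws, Finset.mem_filter, Finset.mem_range] at hw
    have hw24 := ID_w w hw.2.1
    refine ⟨by omega, ?_⟩
    have h6 : (2 ^ a - 3 * w ^ 2) % 6 = 5 ∨ (2 ^ a - 3 * w ^ 2) % 6 = 1 := by omega
    rw [Nat.coprime_comm, Nat.Coprime, Nat.gcd_rec]
    rcases h6 with h | h <;> rw [h] <;> norm_num
  choose! F hF1 hF2 using fun (w : ℕ) (hw : w ∈ ws (2 ^ a)) =>
    hJW (2 ^ a - 3 * w ^ 2) (hjw w hw).1 (hjw w hw).2
  have hf2 : ∀ M : ℤ, (∑ w ∈ ws (2 ^ a), F w).coeff M =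
      ∑ w ∈ ws (2 ^ a), JG ac (2 ^ a - 3 * w ^ 2) M := by
    intro M
    rw [HahnSeries.coeff_sum]
    exact Finset.sum_congr rfl fun w hw => hF2 w hw M
  have h1 : ww ^ (2 ^ a - 3) ∈ WW := by
    refine Submodule.subset_span ⟨2 ^ a - 3, ?_, rfl⟩
    have h8 : 2 ^ 3 ≤ 2 ^ a := Nat.pow_le_pow_right (by norm_num) ha
    omega
  have h2 : (∑ w ∈ ws (2 ^ a), F w) ∈ WW := Submodule.sum_mem _ fun w hw => hF1 w hw
  have h3 : ww ^ (2 ^ a - 3) - ∑ w ∈ ws (2 ^ a), F w = 0 := by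
    refine hNEG _ (Submodule.sub_mem _ h1 h2) fun M hM => ?_
    rw [HahnSeries.coeff_sub, hf2 M, ID_f1 hWA a ha M hM, sub_eq_zero]
    refine Finset.sum_congr rfl fun w hw => ?_
    exact (hJN _ M (hjw w hw).1 hM).symm
  have h4 : ww ^ (2 ^ a - 3) = ∑ w ∈ ws (2 ^ a), F w := sub_eq_zero.1 h3
  rw [← (hWA a ha).1 n, h4, hf2]
  exact Finset.sum_congr rfl fun w hw => ID_JG a ha n w hn hw

end Pool.Agent.EP
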