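import Pool.Agent.helper7.EP.SpecH

/-! # Project ep, module WA -/

set_option autoImplicit false

open Finset PowerSeries UpperHalfPlane ModularForm
open scoped MatrixGroups Real

noncomputable section

namespace Pool.Agent.EP

theorem WA_pow (a : ℕ) (ha : 3 ≤ a) :
    helper81.PP ^ (2 ^ a - 3) = helper81.PP ^ (2 ^ a) * helper81.EE ^ 3 := by
  have h8 : 2 ^ 3 ≤ 2 ^ a := Nat.pow_le_pow_right (by norm_num) ha
  obtain ⟨k, hk⟩ : ∃ k, 2 ^ a = k + 3 := ⟨2 ^ a - 3, by omega⟩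
  rw [hk, Nat.add_sub_cancel, pow_add, mul_assoc, ← mul_pow, helper81.PP_mul_EE, one_pow, mul_one]

theorem WA (hPA : PA_stmt) (hWM : WM_stmt) : WA_stmt := by
  intro a ha
  have h8 : 2 ^ 3 ≤ 2 ^ a := Nat.pow_le_pow_right (by norm_num) ha
  have hcast : ((2 ^ a - 3 : ℕ) : ℤ) = 2 ^ a - 3 := by
    rw [Nat.cast_sub (by omega)]
    push_cast
    ring
  refine ⟨fun n => ?_, fun M hM => ?_⟩
  · rw [hWM.1, hcast]
    have e : (24 * (n : ℤ) + 3 - 2 ^ a + (2 ^ a - 3)) = 24 * (n : ℤ) := by ring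
    rw [e, if_pos ⟨Dvd.intro _ rfl, by positivity⟩]
    have e2 : (24 * (n : ℤ) / 24).toNat = n := by
      rw [Int.mul_ediv_cancel_left _ (by norm_num)]
      simp
    rw [e2, WA_pow a ha]
    exact hPA a n
  · rw [hWM.1, hcast, if_neg]
    rintro ⟨⟨k, hk⟩, h0⟩
    apply hM
    have hk0 : 0 ≤ k := by omega
    refine ⟨k.toNat, ?_⟩
    rw [Int.toNat_of_nonneg hk0]
    linarith

end Pool.Agent.EP
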